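import Mathlib
import Pool.Agent.U209.BX.Stm

/-!
# Project BX, package CURVE: fine subdivisions of a curve and the two elementary moves
-/

set_option autoImplicit false

namespace Pool.Agent.U2.BX

open Complex Finset ComplexConjugate
open Pool.Agent.U209.BX

theorem t_CURVE : S_CURVE := by
  intro y y' hc hd hn δ hδ
  have hyc : Continuous y := continuous_iff_continuousAt.2 fun t => (hd t).continuousAt
  have hK : IsCompact (Set.Icc (0:ℝ) 1) := isCompact_Icc
  obtain ⟨c, hc0, hcb⟩ : ∃ c : ℝ, 0 < c ∧ ∀ t ∈ Set.Icc (0:ℝ) 1, c ≤ ‖y t‖ := by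
    obtain ⟨t0, ht0, hmin⟩ := hK.exists_isMinOn ⟨0, by simp⟩ (hyc.norm.continuousOn)
    exact ⟨‖y t0‖, norm_pos_iff.2 (hn t0), fun t ht => hmin ht⟩
  obtain ⟨M, hM0, hMb⟩ : ∃ M : ℝ, 0 < M ∧ ∀ t ∈ Set.Icc (0:ℝ) 1, ‖y' t‖ ≤ M := by
    obtain ⟨M, hM⟩ := hK.exists_bound_of_continuousOn hc.continuousOn
    exact ⟨max M 1, by positivity, fun t ht => (hM t ht).trans (le_max_left _ _)⟩
  have hgc : Continuous fun t => conj (y t) / (y t) ^ 3 := by
    refine Continuous.div (Complex.continuous_conj.comp hyc) (hyc.pow 3) fun t => pow_ne_zero 3 (hn t)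
  have hgu : UniformContinuousOn (fun t => conj (y t) / (y t) ^ 3) (Set.Icc (0:ℝ) 1) :=
    hK.uniformContinuousOn_of_continuous hgc.continuousOn
  obtain ⟨η, hη0, hη⟩ := Metric.uniformContinuousOn_iff.1 hgu (δ / M) (by positivity)
  obtain ⟨n, hnn⟩ := exists_nat_gt (max (max (16 * M / c) (M ^ 2 / (c ^ 3 * δ))) (max (1 / η) 1))
  have h1 : 16 * M / c < n := lt_of_le_of_lt ((le_max_left _ _).trans (le_max_left _ _)) hnn
  have h2 : M ^ 2 / (c ^ 3 * δ) < n := lt_of_le_of_lt ((le_max_right _ _).trans (le_max_left _ _)) hnn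
  have h3 : 1 / η < n := lt_of_le_of_lt ((le_max_left _ _).trans (le_max_right _ _)) hnn
  have h4 : (1:ℝ) < n := lt_of_le_of_lt ((le_max_right _ _).trans (le_max_right _ _)) hnn
  have hnR : (0:ℝ) < n := by linarith
  have hn0 : 0 < n := by exact_mod_cast hnR
  have hinv : (1:ℝ) / n < η := by
    rw [div_lt_iff₀ hη0] at h3
    rw [div_lt_iff₀ hnR]; linarith
  -- the nodes
  have hI : ∀ j : ℕ, j ≤ n → (j:ℝ) / n ∈ Set.Icc (0:ℝ) 1 := fun j hj =>
    ⟨by positivity, by rw [div_le_one hnR]; exact_mod_cast hj⟩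
  have hstep : ∀ j : ℕ, ((j + 1 : ℕ) : ℝ) / n = (j:ℝ) / n + 1 / n := by
    intro j; push_cast; ring
  have hinc : ∀ j : ℕ, j < n → ‖y ((j + 1 : ℕ) / n) - y (j / n)‖ ≤ M / n := by
    intro j hj
    have hA : (j:ℝ) / n ≤ ((j + 1 : ℕ) : ℝ) / n := by
      rw [hstep]; have : (0:ℝ) ≤ 1 / n := by positivity
      linarith
    have := (convex_Icc (0:ℝ) 1).norm_image_sub_le_of_norm_hasDerivWithin_le
      (f := y) (f' := y') (C := M) (fun t ht => (hd t).hasDerivWithinAt) hMb
      (hI j hj.le) (hI (j+1) hj)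
    refine this.trans (le_of_eq ?_)
    rw [hstep, add_sub_cancel_left, Real.norm_of_nonneg (by positivity)]
    ring
  refine ⟨n, hn0, ?_, ?_, ?_⟩
  · intro j hj
    have ha := hinc j hj
    have hb := hcb _ (hI j hj.le)
    have : 16 * (M / n) ≤ c := by
      rw [div_lt_iff₀ hc0] at h1
      rw [← mul_div_assoc, div_le_iff₀ hnR]; linarith
    linarith
  · unfold chainErr
    have : ∀ j ∈ range n, ‖y ((j + 1 : ℕ) / n) - y (j / n)‖ ^ 2 / ‖y (j / n)‖ ^ 3 ≤
        (M / n) ^ 2 / c ^ 3 := by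
      intro j hj
      have hj' := Finset.mem_range.1 hj
      have ha := hinc j hj'
      have hb := hcb _ (hI j hj'.le)
      gcongr
    refine (Finset.sum_le_sum this).trans ?_
    rw [Finset.sum_const, Finset.card_range, nsmul_eq_mul]
    rw [div_lt_iff₀ (by positivity)] at h2
    rw [div_pow, ← mul_div_assoc, div_le_iff₀ (by positivity), ← mul_div_assoc, div_le_iff₀ (by positivity)]
    nlinarith
  · intro J hJ
    have hint : ∀ a b : ℝ, IntervalIntegrable (fun t => conj (y t) / (y t) ^ 3 * y' t)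
        MeasureTheory.volume a b := fun a b => (hgc.mul hc).intervalIntegrable a b
    have hsum : ∫ t in (0:ℝ)..(J / n), conj (y t) / (y t) ^ 3 * y' t =
        ∑ j ∈ range J, ∫ t in ((j:ℝ) / n)..(((j + 1 : ℕ) : ℝ) / n),
          conj (y t) / (y t) ^ 3 * y' t := by
      rw [intervalIntegral.sum_integral_adjacent_intervals (a := fun j : ℕ => (j:ℝ) / n)
        (fun k _ => hint _ _)]
      simp
    unfold chainSum
    rw [hsum, ← Finset.sum_sub_distrib]
    have hterm : ∀ j ∈ range J, ‖conj (y (j / n)) / (y (j / n)) ^ 3 *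
        (y ((j + 1 : ℕ) / n) - y (j / n)) -
        ∫ t in ((j:ℝ) / n)..(((j + 1 : ℕ) : ℝ) / n), conj (y t) / (y t) ^ 3 * y' t‖ ≤ δ / n := by
      intro j hj
      have hj' : j < n := lt_of_lt_of_le (Finset.mem_range.1 hj) hJ
      have hA : (j:ℝ) / n ≤ ((j + 1 : ℕ) : ℝ) / n := by
        rw [hstep]; have : (0:ℝ) ≤ 1 / n := by positivity
        linarith
      have hftc : y ((j + 1 : ℕ) / n) - y (j / n) =
          ∫ t in ((j:ℝ) / n)..(((j + 1 : ℕ) : ℝ) / n), y' t :=
        (intervalIntegral.integral_eq_sub_of_hasDerivAt (fun t _ => hd t)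
          (hc.intervalIntegrable _ _)).symm
      rw [hftc, ← intervalIntegral.integral_const_mul, ← intervalIntegral.integral_sub
        ((hc.intervalIntegrable _ _).const_mul _) (hint _ _)]
      have hb : ∀ t ∈ Set.uIoc ((j:ℝ) / n) (((j + 1 : ℕ) : ℝ) / n),
          ‖conj (y (j / n)) / (y (j / n)) ^ 3 * y' t - conj (y t) / (y t) ^ 3 * y' t‖ ≤ δ := by
        intro t ht
        rw [Set.uIoc_of_le hA] at ht
        have htI : t ∈ Set.Icc (0:ℝ) 1 :=
          ⟨(hI j hj'.le).1.trans ht.1.le, ht.2.trans (hI (j+1) hj').2⟩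
        rw [← sub_mul, norm_mul]
        have hd1 : dist ((j:ℝ) / n) t < η := by
          rw [Real.dist_eq, abs_sub_comm, abs_of_nonneg (by linarith [ht.1])]
          have := ht.2
          rw [hstep] at this
          linarith
        have h5 := hη _ (hI j hj'.le) t htI hd1
        rw [dist_eq_norm] at h5
        calc _ ≤ (δ / M) * M := by
              gcongr
              exact hMb t htI
          _ = δ := by field_simp
      refine (intervalIntegral.norm_integral_le_of_norm_le_const hb).trans (le_of_eq ?_)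
      rw [hstep, add_sub_cancel_left, abs_of_nonneg (by positivity)]
      ring
    refine (norm_sum_le _ _).trans ((Finset.sum_le_sum hterm).trans ?_)
    rw [Finset.sum_const, Finset.card_range, nsmul_eq_mul, ← mul_div_assoc, div_le_iff₀ hnR]
    have : (J:ℝ) ≤ n := by exact_mod_cast hJ
    nlinarith

/-- from a curve to a link -/
theorem link_of_curve (hC : S_CURVE) (y y' G : ℝ → ℂ) (hc : Continuous y')
    (hd : ∀ t, HasDerivAt y (y' t) t) (hn : ∀ t, y t ≠ 0)
    (hG : ∀ t, HasDerivAt G (conj (y t) / (y t) ^ 3 * y' t) t) (hG0 : G 0 = 0)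
    (R δ : ℝ) (hδ : 0 < δ) (hR : ∀ t ∈ Set.Icc (0:ℝ) 1, ‖G t‖ ≤ R) :
    Link (y 0) (y 1) (R + δ) δ (G 1) := by
  obtain ⟨n, hn0, hA, hB, hD⟩ := hC y y' hc hd hn δ hδ
  have hnR : (0:ℝ) < n := by exact_mod_cast hn0
  have hyc : Continuous y := continuous_iff_continuousAt.2 fun t => (hd t).continuousAt
  have hgc : Continuous fun t => conj (y t) / (y t) ^ 3 := by
    refine Continuous.div (Complex.continuous_conj.comp hyc) (hyc.pow 3) fun t => pow_ne_zero 3 (hn t)
  have hint : ∀ s : ℝ, ∫ t in (0:ℝ)..s, conj (y t) / (y t) ^ 3 * y' t = G s := by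
    intro s
    rw [intervalIntegral.integral_eq_sub_of_hasDerivAt (fun t _ => hG t)
      ((hgc.mul hc).intervalIntegrable _ _), hG0, sub_zero]
  refine ⟨n, fun j => y (j / n), by simp, by simp [hnR.ne'], fun j _ => hn _, ?_, ?_, ?_, hB⟩
  · intro j hj
    exact hA j hj
  · intro J hJ
    have h1 := hD J hJ
    rw [hint] at h1
    have h2 : ‖G (J / n)‖ ≤ R := hR _ ⟨by positivity, by rw [div_le_one hnR]; exact_mod_cast hJ⟩
    calc ‖chainSum (fun j => y (j / n)) J‖
        = ‖(chainSum (fun j => y (j / n)) J - G (J / n)) + G (J / n)‖ := by rw [sub_add_cancel]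
      _ ≤ ‖chainSum (fun j => y (j / n)) J - G (J / n)‖ + ‖G (J / n)‖ := norm_add_le _ _
      _ ≤ R + δ := by linarith
  · have h1 := hD n le_rfl
    rw [hint, div_self hnR.ne'] at h1
    exact h1

theorem t_RAD : S_CURVE → S_RAD := by
  intro hC w ρ δ hw hρ hδ
  have hcw : conj w ≠ 0 := by simpa using hw
  set l : ℝ := Real.log ρ with hl
  have hexp : ∀ t : ℝ, HasDerivAt (fun t : ℝ => Complex.exp (-(l:ℂ) * t))
      (-(l:ℂ) * Complex.exp (-(l:ℂ) * t)) t := by
    intro t
    have h1 : HasDerivAt (fun t : ℝ => (-(l:ℂ)) * (t:ℂ)) (-(l:ℂ)) t := by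
      simpa using (Complex.ofRealCLM.hasDerivAt (x := t)).const_mul (-(l:ℂ))
    have h2 := h1.cexp
    rw [mul_comm] at h2
    exact h2
  have hexp' : ∀ t : ℝ, HasDerivAt (fun t : ℝ => Complex.exp ((l:ℂ) * t))
      ((l:ℂ) * Complex.exp ((l:ℂ) * t)) t := by
    intro t
    have h1 : HasDerivAt (fun t : ℝ => ((l:ℂ)) * (t:ℂ)) ((l:ℂ)) t := by
      simpa using (Complex.ofRealCLM.hasDerivAt (x := t)).const_mul ((l:ℂ))
    have h2 := h1.cexp
    rw [mul_comm] at h2
    exact h2
  have key := link_of_curve hC (fun t : ℝ => w⁻¹ * Complex.exp (-(l:ℂ) * t))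
    (fun t : ℝ => w⁻¹ * (-(l:ℂ) * Complex.exp (-(l:ℂ) * t)))
    (fun t : ℝ => -(w ^ 2 / conj w) * (Complex.exp ((l:ℂ) * t) - 1))
    (by fun_prop) (fun t => (hexp t).const_mul _)
    (fun t => mul_ne_zero (inv_ne_zero hw) (Complex.exp_ne_zero _))
    (by
      intro t
      have h := ((hexp' t).sub_const 1).const_mul (-(w ^ 2 / conj w))
      refine HasDerivAt.congr_deriv h ?_
      have h1 : conj (Complex.exp (-(l:ℂ) * t)) = Complex.exp (-(l:ℂ) * t) := by
        rw [← Complex.exp_conj]; simp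
      have h2 : Complex.exp ((l:ℂ) * t) = (Complex.exp (-(l:ℂ) * t))⁻¹ := by
        rw [← Complex.exp_neg]; congr 1; ring
      have h3 := Complex.exp_ne_zero (-(l:ℂ) * t)
      rw [map_mul, h1, h2, map_inv₀]
      field_simp)
    (by simp) (‖w‖ * |ρ - 1|) δ hδ
    (by
      intro t ht
      have h1 : Complex.exp ((l:ℂ) * t) = ((Real.exp (l * t) : ℝ) : ℂ) := by push_cast; rfl
      have h2 : ‖w ^ 2 / conj w‖ = ‖w‖ := by
        rw [norm_div, norm_pow, RCLike.norm_conj, pow_two, mul_div_assoc, div_self (norm_ne_zero_iff.2 hw), mul_one]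
      rw [norm_mul, norm_neg, h2, h1]
      have h3 : ‖((Real.exp (l * t) : ℝ) : ℂ) - 1‖ = |Real.exp (l * t) - 1| := by
        rw [← Complex.ofReal_one, ← Complex.ofReal_sub, Complex.norm_real, Real.norm_eq_abs]
      rw [h3]
      have h4 : Real.exp l = ρ := Real.exp_log hρ
      refine mul_le_mul_of_nonneg_left ?_ (norm_nonneg _)
      rcases le_total 0 l with h | h
      · have h5 : 1 ≤ Real.exp (l * t) := Real.one_le_exp (mul_nonneg h ht.1)
        have h6 : Real.exp (l * t) ≤ ρ := by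
          rw [← h4]; exact Real.exp_le_exp.2 (by nlinarith [ht.2])
        rw [abs_of_nonneg (by linarith), abs_of_nonneg (by linarith)]
        linarith
      · have h5 : Real.exp (l * t) ≤ 1 := by
          rw [← Real.exp_zero]; exact Real.exp_le_exp.2 (by nlinarith [ht.1])
        have h6 : ρ ≤ Real.exp (l * t) := by
          rw [← h4]; exact Real.exp_le_exp.2 (by nlinarith [ht.2])
        rw [abs_of_nonpos (by linarith), abs_of_nonpos (by linarith)]
        linarith)
  have he : Complex.exp (l:ℂ) = (ρ:ℂ) := by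
    rw [← Complex.ofReal_exp, hl, Real.exp_log hρ]
  simp only [Complex.ofReal_zero, mul_zero, Complex.exp_zero, mul_one, Complex.ofReal_one,
    Complex.exp_neg, he] at key
  rw [mul_inv]
  exact key

theorem t_ROT : S_CURVE → S_ROT := by
  intro hC w β δ hw hδ
  have hcw : conj w ≠ 0 := by simpa using hw
  have hexp : ∀ (a : ℂ) (t : ℝ), HasDerivAt (fun t : ℝ => Complex.exp (a * t))
      (a * Complex.exp (a * t)) t := by
    intro a t
    have h1 : HasDerivAt (fun t : ℝ => a * (t:ℂ)) a t := by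
      simpa using (Complex.ofRealCLM.hasDerivAt (x := t)).const_mul a
    have h2 := h1.cexp
    rw [mul_comm] at h2
    exact h2
  have key := link_of_curve hC (fun t : ℝ => w⁻¹ * Complex.exp (-(β * I) * t))
    (fun t : ℝ => w⁻¹ * (-(β * I) * Complex.exp (-(β * I) * t)))
    (fun t : ℝ => -(w ^ 2 / conj w) * ((Complex.exp ((3 * β * I) * t) - 1) / 3))
    (by fun_prop) (fun t => (hexp _ t).const_mul _)
    (fun t => mul_ne_zero (inv_ne_zero hw) (Complex.exp_ne_zero _))
    (by
      intro t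
      have h := (((hexp (3 * β * I) t).sub_const 1).div_const 3).const_mul (-(w ^ 2 / conj w))
      refine HasDerivAt.congr_deriv h ?_
      have h1 : conj (Complex.exp (-(β * I) * t)) = (Complex.exp (-(β * I) * t))⁻¹ := by
        rw [← Complex.exp_conj, ← Complex.exp_neg]; congr 1; simp
      have h2 : Complex.exp ((3 * β * I) * t) = ((Complex.exp (-(β * I) * t))⁻¹) ^ 3 := by
        rw [← Complex.exp_neg, ← Complex.exp_nat_mul]; congr 1; push_cast; ring
      have h3 := Complex.exp_ne_zero (-(β * I) * t)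
      rw [map_mul, h1, h2, map_inv₀]
      field_simp)
    (by simp) (‖w‖ * |β|) δ hδ
    (by
      intro t ht
      have h2 : ‖w ^ 2 / conj w‖ = ‖w‖ := by
        rw [norm_div, norm_pow, RCLike.norm_conj, pow_two, mul_div_assoc, div_self (norm_ne_zero_iff.2 hw), mul_one]
      rw [norm_mul, norm_neg, h2, norm_div]
      refine mul_le_mul_of_nonneg_left ?_ (norm_nonneg _)
      have h3 : ‖Complex.exp ((3 * β * I) * t) - 1‖ ≤ |3 * β * t| := by
        have h5 : (3 * β * I) * t = I * ((3 * β * t : ℝ) : ℂ) := by push_cast; ring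
        rw [h5]
        exact Real.norm_exp_I_mul_ofReal_sub_one_le
      have h4 : |3 * β * t| ≤ 3 * |β| := by
        rw [abs_mul, abs_mul, abs_of_nonneg ht.1, abs_of_pos (by norm_num : (0:ℝ) < 3)]
        nlinarith [abs_nonneg β, ht.2]
      rw [show ‖(3:ℂ)‖ = 3 by simp, div_le_iff₀ (by norm_num)]
      linarith)
  simp only [Complex.ofReal_zero, mul_zero, Complex.exp_zero, mul_one, Complex.ofReal_one,
    Complex.exp_neg] at key
  rw [mul_inv]
  unfold ex
  have : ((3 * β : ℝ) : ℂ) * I = 3 * β * I := by push_cast; ring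
  rw [this]
  exact key

end Pool.Agent.U2.BX
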